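import Pool.Agent.RS.StmtsT

set_option autoImplicit false

/-!
# Squad RS, rows EQP and ALG
-/

namespace Pool.Agent.RS.H58

open Pool.Agent.RS

/-- Row EQP. -/
theorem eqp : EqpStmt := by
  classical
  intro B _ R q p hq hqp halg hR
  refine le_antisymm (fun f hf => ?_) hqp
  by_contra hfq
  have hex : ∃ n : ℕ, ∃ g : Polynomial B, g ≠ 0 ∧ (∀ n, g.coeff n ∈ R) ∧ g.eval f ∈ q ∧
      g.natDegree = n := by
    obtain ⟨g, h1, h2, h3⟩ := halg f
    exact ⟨_, g, h1, h2, h3, rfl⟩
  obtain ⟨g, h1, h2, h3, h4⟩ := Nat.find_spec hex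
  have hmin := fun m (hm : m < Nat.find hex) => Nat.find_min hex hm
  rw [← h4] at hmin
  have he : g.eval f = g.divX.eval f * f + g.coeff 0 := by
    conv_lhs => rw [← Polynomial.divX_mul_X_add g]
    simp
  have h0 : g.coeff 0 = 0 := by
    refine hR _ (h2 0) ?_
    have h5 : g.coeff 0 = g.eval f - g.divX.eval f * f := by rw [he]; ring
    rw [h5]
    exact p.sub_mem (hqp h3) (p.mul_mem_left _ hf)
  rw [h0, add_zero] at he
  rw [he] at h3
  have h6 : g.divX.eval f ∈ q := (hq.mem_or_mem h3).resolve_right hfq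
  have hd0 : g.divX ≠ 0 := by
    intro h7
    apply h1
    rw [← Polynomial.divX_mul_X_add g, h7, h0]
    simp
  have hpos : 0 < g.natDegree := by
    rcases Nat.eq_zero_or_pos g.natDegree with h8 | h8
    · exfalso
      apply h1
      rw [Polynomial.eq_C_of_natDegree_eq_zero h8, h0, Polynomial.C_0]
    · exact h8
  refine hmin g.divX.natDegree ?_ ⟨g.divX, hd0, fun n => ?_, h6, rfl⟩
  · rw [Polynomial.natDegree_divX_eq_natDegree_tsub_one]
    omega
  · rw [Polynomial.coeff_divX]
    exact h2 _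

/-- Row ALG. -/
theorem alg : AlgStmt := by
  classical
  intro B _ _ P x r q lc e ρ α β hT hA p hp hqp hlc h0
  have hdom : IsDomain (B ⧸ p) := Ideal.Quotient.isDomain p
  let i : P r →+* B ⧸ p := (Ideal.Quotient.mk p).comp (P r).subtype
  let _ : Algebra (P r) (B ⧸ p) := i.toAlgebra
  have hi : Function.Injective i := by
    rw [injective_iff_map_eq_zero]
    intro a ha
    have h1 : (a : B) ∈ p := Ideal.Quotient.eq_zero_iff_mem.1 ha
    exact Subtype.ext (h0 a a.2 h1)
  let C : Subalgebra (P r) (B ⧸ p) := Subalgebra.algebraicClosure (P r) (B ⧸ p)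
  have hmem : ∀ k ≤ r, ∀ f ∈ P (r - k), Ideal.Quotient.mk p f ∈ C := by
    intro k
    induction k with
    | zero =>
      intro _ f hf
      exact C.algebraMap_mem (⟨f, hf⟩ : P r)
    | succ k ih0 =>
      intro hk
      obtain ⟨l, hl, hl1, hl2⟩ : ∃ l, l < r ∧ r - k = l + 1 ∧ r - (k + 1) = l :=
        ⟨r - (k + 1), by omega, by omega, rfl⟩
      have ih := ih0 (by omega)
      rw [hl1] at ih
      rw [hl2]
      obtain ⟨hP1, hP2, hP3, hP4⟩ := hT.2 l hl
      obtain ⟨-, -, -, -, -, -, -, -, s, hs1, hs2, hs3, hs4⟩ := hA.2 l hl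
      have hxC : Ideal.Quotient.mk p (x l) ∈ C := by
        have hlift : s.map (Ideal.Quotient.mk p) ∈ Polynomial.lifts (algebraMap C (B ⧸ p)) := by
          rw [Polynomial.lifts_iff_coeff_lifts]
          intro n
          rw [Polynomial.coeff_map]
          exact ⟨⟨_, ih _ (hs1 n)⟩, rfl⟩
        obtain ⟨s', hs'⟩ := hlift
        have hs' : s'.map (algebraMap C (B ⧸ p)) = s.map (Ideal.Quotient.mk p) := hs'
        have hne : s' ≠ 0 := by
          rintro rfl
          rw [Polynomial.map_zero] at hs'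
          have h1 := congrArg (fun t => Polynomial.coeff t s.natDegree) hs'
          simp only [Polynomial.coeff_zero, Polynomial.coeff_map] at h1
          rw [Polynomial.coeff_natDegree, hs3] at h1
          exact hlc l hl (Ideal.Quotient.eq_zero_iff_mem.1 h1.symm)
        have hroot : Polynomial.aeval (Ideal.Quotient.mk p (x l)) s' = 0 := by
          rw [Polynomial.aeval_def, ← Polynomial.eval_map, hs', Polynomial.eval_map,
            Polynomial.eval₂_hom, hs4]
          exact Ideal.Quotient.eq_zero_iff_mem.2 (hqp l hl)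
        have hal : IsAlgebraic C (Ideal.Quotient.mk p (x l)) := ⟨s', hne, hroot⟩
        exact hal.restrictScalars (P r)
      intro f hf
      obtain ⟨t, ht1, rfl⟩ := hP3 f hf
      rw [Polynomial.eval_eq_sum_range, map_sum]
      refine C.sum_mem fun n _ => ?_
      rw [map_mul, map_pow]
      exact C.mul_mem (ih _ (ht1 n)) (C.pow_mem hxC n)
  intro f
  obtain ⟨g, hg, hgf⟩ : IsAlgebraic (P r) (Ideal.Quotient.mk p f) :=
    hmem r le_rfl f (by rw [Nat.sub_self]; exact hT.1 f)
  refine ⟨g.map (P r).subtype, ?_, fun n => ?_, ?_⟩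
  · intro h1
    apply hg
    exact Polynomial.map_injective _ (P r).subtype_injective (by rw [h1, Polynomial.map_zero])
  · rw [Polynomial.coeff_map]
    exact (g.coeff n).2
  · rw [← Ideal.Quotient.eq_zero_iff_mem, ← hgf, Polynomial.eval_map, Polynomial.hom_eval₂,
      Polynomial.aeval_def]
    rfl

end Pool.Agent.RS.H58
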