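import Pool.Agent.RS.StmtsG

set_option autoImplicit false

/-!
# Squad RS: clusters of products

`T` is a cluster if `T = f_1 ⋯ f_N (a_1 / b_1 + ⋯ + a_M / b_M)` with polynomials `f_v`, `a_t`, `b_t` of
degree `≤ d` and arbitrary `N`, `M`.
-/

namespace Pool.Agent.RS.H58C

open MvPolynomial

/-- `T` is a polynomial in `x_0, ..., x_(n-1)` and `T = f_1 ⋯ f_N (a_1 / b_1 + ⋯ + a_M / b_M)`, all
`f_v`, `a_t`, `b_t` of degree `≤ d`. -/
def IsCluster (E : Type) [Field E] (d n : ℕ) (T : MvPolynomial ℕ E) : Prop :=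
  T.vars ⊆ Finset.range n ∧ ∃ (N M : ℕ) (f : Fin N → MvPolynomial ℕ E)
    (a b : Fin M → MvPolynomial ℕ E), (∀ v, (f v).totalDegree ≤ d) ∧
    (∀ t, b t ≠ 0 ∧ (a t).totalDegree ≤ d ∧ (b t).totalDegree ≤ d) ∧
    T * ∏ t, b t = (∏ v, f v) * ∑ t, a t * ∏ t' ∈ Finset.univ.erase t, b t'

/-- `F = C(T_1, ..., T_m)` with an arbitrary polynomial `C` and clusters `T_i`, at most `k` of them
algebraically independent. -/
def IsCompC (E : Type) [Field E] (k d n : ℕ) (F : MvPolynomial ℕ E) : Prop :=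
  ∃ (m : ℕ) (T : Fin m → MvPolynomial ℕ E) (C : MvPolynomial (Fin m) E),
    (∀ i, IsCluster E d n (T i)) ∧
    (∀ s : Finset (Fin m), AlgebraicIndependent E (fun i : s => T i) → s.card ≤ k) ∧
    F = aeval T C

/-- The index type of the expansion of the Jacobian determinant. -/
abbrev KIdx {ρ : ℕ} (U : Fin ρ → Type) : Type := Equiv.Perm (Fin ρ) × (∀ l : Fin ρ, U l)

theorem det_expand {E : Type} [Field E] {ρ : ℕ} (U : Fin ρ → Type) [∀ l, Fintype (U l)]
    [∀ l, DecidableEq (U l)]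
    (Te : Matrix (Fin ρ) (Fin ρ) (MvPolynomial ℕ E)) (P : Fin ρ → MvPolynomial ℕ E)
    (nu : ∀ l : Fin ρ, Fin ρ → U l → MvPolynomial ℕ E) (de : ∀ l : Fin ρ, U l → MvPolynomial ℕ E)
    (h : ∀ i l, io E (Te i l) = io E (P l) * ∑ u, io E (nu l i u) / io E (de l u)) :
    io E Te.det = io E (∏ l, P l) * total
      (fun t : KIdx U => ((Equiv.Perm.sign t.1 : ℤ) : MvPolynomial ℕ E) *
        ∏ l, nu l (t.1 l) (t.2 l)) (fun t : KIdx U => ∏ l, de l (t.2 l)) := by
  rw [Matrix.det_apply', map_sum]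
  unfold total
  rw [Fintype.sum_prod_type, Finset.mul_sum]
  apply Finset.sum_congr rfl
  intro σ _
  rw [map_mul, map_prod]
  simp only [h]
  rw [Finset.prod_mul_distrib, ← map_prod, Finset.prod_univ_sum, Fintype.piFinset_univ]
  have h2 : ∀ x : (∀ l : Fin ρ, U l),
      io E (((Equiv.Perm.sign σ : ℤ) : MvPolynomial ℕ E) * ∏ l, nu l (σ l) (x l)) /
        io E (∏ l, de l (x l)) = io E ((Equiv.Perm.sign σ : ℤ) : MvPolynomial ℕ E) *
          ∏ l, io E (nu l (σ l) (x l)) / io E (de l (x l)) := by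
    intro x
    rw [map_mul, map_prod, map_prod, Finset.prod_div_distrib, mul_div_assoc]
  simp only [h2]
  rw [← Finset.mul_sum]
  ring

theorem prod_deg {ρ d : ℕ} {E : Type} [Field E] (g : Fin ρ → MvPolynomial ℕ E)
    (hg : ∀ l, (g l).totalDegree ≤ d) : (∏ l, g l).totalDegree ≤ ρ * d := by
  refine (totalDegree_finsetProd _ _).trans ?_
  refine (Finset.sum_le_card_nsmul _ _ d fun l _ => hg l).trans ?_
  rw [Finset.card_univ, Fintype.card_fin, smul_eq_mul]

section Entry

variable {E : Type} [Field E] {N M : ℕ}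

/-- The numerators of the logarithmic derivative. -/
noncomputable def enu (f : Fin N → MvPolynomial ℕ E) (a b : Fin M → MvPolynomial ℕ E) (j : ℕ) :
    Fin M ⊕ (Fin M × Fin N) → MvPolynomial ℕ E
  | Sum.inl t => pderiv j (a t) * b t - a t * pderiv j (b t)
  | Sum.inr (t, v) => a t * pderiv j (f v)

/-- The denominators of the logarithmic derivative. -/
noncomputable def ede (f : Fin N → MvPolynomial ℕ E) (b : Fin M → MvPolynomial ℕ E) :
    Fin M ⊕ (Fin M × Fin N) → MvPolynomial ℕ E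
  | Sum.inl t => b t * b t
  | Sum.inr (t, v) => b t * f v

theorem enu_deg {d : ℕ} (f : Fin N → MvPolynomial ℕ E) (a b : Fin M → MvPolynomial ℕ E) (j : ℕ)
    (hf : ∀ v, (f v).totalDegree ≤ d) (ha : ∀ t, (a t).totalDegree ≤ d)
    (hb : ∀ t, (b t).totalDegree ≤ d) (u) : (enu f a b j u).totalDegree ≤ 2 * d := by
  rcases u with t | ⟨t, v⟩
  · refine (totalDegree_sub _ _).trans (max_le ?_ ?_)
    · refine (totalDegree_mul _ _).trans ?_
      have := (totalDegree_pderiv_le E j (a t)).trans (ha t)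
      have := hb t
      omega
    · refine (totalDegree_mul _ _).trans ?_
      have := (totalDegree_pderiv_le E j (b t)).trans (hb t)
      have := ha t
      omega
  · refine (totalDegree_mul _ _).trans ?_
    have := (totalDegree_pderiv_le E j (f v)).trans (hf v)
    have := ha t
    omega

theorem ede_deg {d : ℕ} (f : Fin N → MvPolynomial ℕ E) (b : Fin M → MvPolynomial ℕ E)
    (hf : ∀ v, (f v).totalDegree ≤ d) (hb : ∀ t, (b t).totalDegree ≤ d) (u) :
    (ede f b u).totalDegree ≤ 2 * d := by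
  rcases u with t | ⟨t, v⟩
  · refine (totalDegree_mul _ _).trans ?_
    have := hb t
    omega
  · refine (totalDegree_mul _ _).trans ?_
    have := hb t
    have := hf v
    omega

theorem ede_ne (f : Fin N → MvPolynomial ℕ E) (b : Fin M → MvPolynomial ℕ E)
    (hf : ∀ v, f v ≠ 0) (hb : ∀ t, b t ≠ 0) (u) : ede f b u ≠ 0 := by
  rcases u with t | ⟨t, v⟩
  · exact mul_ne_zero (hb t) (hb t)
  · exact mul_ne_zero (hb t) (hf v)

/-- The derivative of a cluster. -/
theorem entry (hlde : LdeStmt) (hder : DerStmt) (hnmt : NmtStmt) (T : MvPolynomial ℕ E)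
    (f : Fin N → MvPolynomial ℕ E) (a b : Fin M → MvPolynomial ℕ E) (hf : ∀ v, f v ≠ 0)
    (hb : ∀ t, b t ≠ 0) (hT : T * ∏ t, b t = (∏ v, f v) * numer a b) (j : ℕ) :
    io E (pderiv j T) = io E (∏ v, f v) *
      ∑ u, io E (enu f a b j u) / io E (ede f b u) := by
  classical
  obtain ⟨D', hD, hL⟩ := hder E (MvPolynomial ℕ E) (pderiv j)
  have hio : Function.Injective (io E) := io_injective
  have hne : ∀ p : MvPolynomial ℕ E, p ≠ 0 → io E p ≠ 0 := by
    intro p hp h
    rw [← map_zero (io E)] at h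
    exact hp (hio h)
  have hbp : ∏ t, b t ≠ 0 := Finset.prod_ne_zero_iff.2 fun t _ => hb t
  obtain ⟨-, -, hn3⟩ := hnmt (Fin M)
  obtain ⟨htot, -⟩ := hn3 E a b hb
  have hT' : io E T = io E (∏ v, f v) * total a b := by
    have h1 := congrArg (io E) hT
    rw [map_mul, map_mul] at h1
    rw [htot, ← mul_div_assoc, eq_div_iff (hne _ hbp)]
    exact h1
  have hquot : ∀ t, D' (io E (a t) / io E (b t)) =
      io E (pderiv j (a t) * b t - a t * pderiv j (b t)) / io E (b t * b t) := by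
    intro t
    have hbt := hne _ (hb t)
    have h1 : D' (io E (b t) * (io E (a t) / io E (b t))) = D' (io E (a t)) := by
      rw [mul_div_cancel₀ _ hbt]
    rw [hL, hD, hD] at h1
    rw [map_sub, map_mul, map_mul, map_mul, eq_div_iff (mul_ne_zero hbt hbt)]
    have h2 : io E (b t) * D' (io E (a t) / io E (b t)) = io E (pderiv j (a t)) -
        io E (a t) / io E (b t) * io E (pderiv j (b t)) := by
      rw [eq_sub_iff_add_eq]
      exact h1
    calc D' (io E (a t) / io E (b t)) * (io E (b t) * io E (b t))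
        = (io E (b t) * D' (io E (a t) / io E (b t))) * io E (b t) := by ring
      _ = _ := by
        rw [h2, sub_mul]
        congr 1
        rw [mul_assoc, mul_comm (io E (pderiv j (b t))), ← mul_assoc, div_mul_cancel₀ _ hbt]
  have hW : D' (total a b) = ∑ t, io E (pderiv j (a t) * b t - a t * pderiv j (b t)) /
      io E (b t * b t) := by
    unfold total
    rw [map_sum]
    exact Finset.sum_congr rfl fun t _ => hquot t
  have hP : D' (io E (∏ v, f v)) = io E (∏ v, f v) *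
      ∑ v, io E (pderiv j (f v)) / io E (f v) := by
    rw [hD]
    exact hlde E N j f hf
  have h3 : io E (pderiv j T) = D' (io E T) := (hD T).symm
  rw [h3, hT', hL, hW, hP, Fintype.sum_sum_type, Fintype.sum_prod_type, mul_add]
  congr 1
  rw [mul_left_comm]
  congr 1
  unfold total
  rw [Finset.sum_mul]
  refine Finset.sum_congr rfl fun t _ => ?_
  rw [Finset.mul_sum]
  refine Finset.sum_congr rfl fun v _ => ?_
  show _ = io E (a t * pderiv j (f v)) / io E (b t * f v)
  rw [map_mul, map_mul, div_mul_div_comm]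

end Entry

/-- Specialisation of a composition of clusters. -/
theorem spe (hrss : RssStmt) (hfai : FaiStmt) (hlde : LdeStmt) (hder : DerStmt) (hphb : PhbStmt)
    (hnmt : NmtStmt) : ∀ (E : Type) [Field E] [CharZero E] (k d : ℕ), ∃ r Δ : ℕ,
    ∀ (n : ℕ) (F : MvPolynomial ℕ E), IsCompC E k d n F → F ≠ 0 →
      ∃ (J : Finset ℕ) (H : Finset (MvPolynomial ℕ E)), J.card ≤ r ∧
        (∀ h ∈ H, h ≠ 0 ∧ h.totalDegree ≤ Δ) ∧ ∀ ζ : ℕ → E, (∀ h ∈ H, eval ζ h ≠ 0) →
          Phi J ζ F ≠ 0 := by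
  classical
  intro E _ _ k d
  obtain ⟨r₀, Δ₀, hrs⟩ := hrss E (k * (2 * d))
  refine ⟨r₀ + k, max Δ₀ d, ?_⟩
  intro n F hF hF0
  obtain ⟨m, T, C, hT, hk, hFC⟩ := hF
  have hT' : ∀ i, ∃ (N M : ℕ) (f : Fin N → MvPolynomial ℕ E)
    (a b : Fin M → MvPolynomial ℕ E), (∀ v, (f v).totalDegree ≤ d) ∧
    (∀ t, b t ≠ 0 ∧ (a t).totalDegree ≤ d ∧ (b t).totalDegree ≤ d) ∧
    T i * ∏ t, b t = (∏ v, f v) * numer a b := fun i => (hT i).2
  choose N M f a b hf hab hTf using hT'
  obtain ⟨ρ, s, j, hρ, hdet, hfaith⟩ := hfai E m k T hk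
  -- the factors are not zero
  have hT0 : ∀ l, T (s l) ≠ 0 := by
    intro l h
    apply hdet
    apply Matrix.det_eq_zero_of_column_eq_zero l
    intro i
    rw [Matrix.of_apply, h, map_zero]
  have hb0 : ∀ l t, b (s l) t ≠ 0 := fun l t => (hab (s l) t).1
  have hf0 : ∀ l v, f (s l) v ≠ 0 := by
    intro l v h
    have h1 : T (s l) * ∏ t, b (s l) t ≠ 0 :=
      mul_ne_zero (hT0 l) (Finset.prod_ne_zero_iff.2 fun t _ => hb0 l t)
    apply h1
    rw [hTf (s l), Finset.prod_eq_zero (Finset.mem_univ v) h, zero_mul]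
  let U : Fin ρ → Type := fun l => Fin (M (s l)) ⊕ (Fin (M (s l)) × Fin (N (s l)))
  let nu : ∀ l : Fin ρ, Fin ρ → U l → MvPolynomial ℕ E :=
    fun l i => enu (f (s l)) (a (s l)) (b (s l)) (j i)
  let de : ∀ l : Fin ρ, U l → MvPolynomial ℕ E := fun l => ede (f (s l)) (b (s l))
  obtain ⟨De, hDe⟩ : ∃ De, De = (Matrix.of fun i l => pderiv (j i) (T (s l))).det := ⟨_, rfl⟩
  obtain ⟨A, hA⟩ : ∃ A : KIdx U → MvPolynomial ℕ E, A = fun t : KIdx U =>
      ((Equiv.Perm.sign t.1 : ℤ) : MvPolynomial ℕ E) * ∏ l, nu l (t.1 l) (t.2 l) := ⟨_, rfl⟩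
  obtain ⟨B, hB⟩ : ∃ B : KIdx U → MvPolynomial ℕ E, B = fun t : KIdx U =>
      ∏ l, de l (t.2 l) := ⟨_, rfl⟩
  have hj1 : io E De = io E (∏ l, ∏ v, f (s l) v) * total A B := by
    rw [hDe, hA, hB]
    refine det_expand U _ (fun l => ∏ v, f (s l) v) nu de ?_
    intro i l
    rw [Matrix.of_apply]
    exact entry hlde hder hnmt (T (s l)) (f (s l)) (a (s l)) (b (s l)) (hf0 l) (hb0 l)
      (hTf (s l)) (j i)
  have hB0 : ∀ t, B t ≠ 0 := by
    intro t
    rw [hB]
    exact Finset.prod_ne_zero_iff.2 fun l _ => ede_ne _ _ (hf0 l) (hb0 l) _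
  have hAd : ∀ t, (A t).totalDegree ≤ ρ * (2 * d) := by
    intro t
    rw [hA]
    refine (totalDegree_mul _ _).trans ?_
    have h1 : (((Equiv.Perm.sign t.1 : ℤ)) : MvPolynomial ℕ E).totalDegree = 0 := by
      rcases Int.units_eq_one_or (Equiv.Perm.sign t.1) with h | h
      · rw [h]
        simp
      · rw [h]
        simp
    rw [h1, zero_add]
    exact prod_deg _ fun l => enu_deg _ _ _ _ (hf (s l)) (fun t => (hab (s l) t).2.1)
      (fun t => (hab (s l) t).2.2) _
  have hBd : ∀ t, (B t).totalDegree ≤ ρ * (2 * d) := by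
    intro t
    rw [hB]
    exact prod_deg _ fun l => ede_deg _ _ (hf (s l)) (fun t => (hab (s l) t).2.2) _
  obtain ⟨-, -, hn3⟩ := hnmt (KIdx U)
  obtain ⟨htot, hiff⟩ := hn3 E A B hB0
  rw [← hDe] at hdet
  have hio : Function.Injective (io E) := io_injective
  have hioDe : io E De ≠ 0 := by
    intro h
    rw [← map_zero (io E)] at h
    exact hdet (hio h)
  have htot0 : total A B ≠ 0 := by
    intro h
    rw [h, mul_zero] at hj1
    exact hioDe hj1
  have hnum0 : numer A B ≠ 0 := hiff.1 htot0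
  have hbprod : ∏ t, B t ≠ 0 := Finset.prod_ne_zero_iff.2 fun t _ => hB0 t
  have hiob : io E (∏ t, B t) ≠ 0 := by
    intro h
    rw [← map_zero (io E)] at h
    exact hbprod (hio h)
  -- the identity in the ring of polynomials
  have hid : De * ∏ t, B t = (∏ l, ∏ v, f (s l) v) * numer A B := by
    apply hio
    rw [map_mul, map_mul, hj1, htot, mul_assoc, div_mul_cancel₀ _ hiob]
  obtain ⟨J₀, H₀, hJ₀, hH₀, hζ₀⟩ := hrs (KIdx U) A B (fun t => ⟨hB0 t,
    (hAd t).trans (Nat.mul_le_mul_right _ hρ), (hBd t).trans (Nat.mul_le_mul_right _ hρ)⟩)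
    hnum0
  refine ⟨J₀ ∪ Finset.univ.image j,
    H₀ ∪ (Finset.univ.biUnion fun l : Fin ρ => Finset.univ.image fun v : Fin (N (s l)) =>
      f (s l) v), ?_, ?_, ?_⟩
  · refine (Finset.card_union_le _ _).trans ?_
    refine Nat.add_le_add hJ₀ ?_
    refine Finset.card_image_le.trans ?_
    rw [Finset.card_univ, Fintype.card_fin]
    exact hρ
  · intro h hh
    rcases Finset.mem_union.1 hh with h1 | h1
    · exact ⟨(hH₀ h h1).1, (hH₀ h h1).2.trans (le_max_left _ _)⟩
    · obtain ⟨l, -, h2⟩ := Finset.mem_biUnion.1 h1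
      obtain ⟨v, -, rfl⟩ := Finset.mem_image.1 h2
      exact ⟨hf0 l v, (hf (s l) v).trans (le_max_right _ _)⟩
  · intro ζ hζ
    obtain ⟨J, hJ⟩ : ∃ J, J = J₀ ∪ Finset.univ.image j := ⟨_, rfl⟩
    rw [← hJ]
    have hJ₀J : J₀ ⊆ J := by
      rw [hJ]
      exact Finset.subset_union_left
    have hjJ : ∀ i, j i ∈ J := by
      intro i
      rw [hJ]
      exact Finset.mem_union_right _ (Finset.mem_image_of_mem _ (Finset.mem_univ i))
    have hnumΦ : Phi J ζ (numer A B) ≠ 0 := by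
      intro h
      have h1 := (hphb E J₀ ζ (numer A B)).2.2.1 J hJ₀J
      rw [h, map_zero] at h1
      exact hζ₀ ζ (fun h hh => hζ h (Finset.mem_union_left _ hh)) h1.symm
    have hfΦ : ∀ l v, Phi J ζ (f (s l) v) ≠ 0 := by
      intro l v h
      have h1 := (hphb E J ζ (f (s l) v)).1
      rw [h, map_zero] at h1
      refine hζ (f (s l) v) (Finset.mem_union_right _ ?_) h1.symm
      exact Finset.mem_biUnion.2 ⟨l, Finset.mem_univ l,
        Finset.mem_image_of_mem _ (Finset.mem_univ v)⟩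
    have hDeΦ : Phi J ζ De ≠ 0 := by
      intro h
      have h1 := congrArg (Phi J ζ) hid
      rw [map_mul, h, zero_mul, map_mul] at h1
      have h2 : Phi J ζ (∏ l, ∏ v, f (s l) v) ≠ 0 := by
        rw [map_prod]
        refine Finset.prod_ne_zero_iff.2 fun l _ => ?_
        rw [map_prod]
        exact Finset.prod_ne_zero_iff.2 fun v _ => hfΦ l v
      exact mul_ne_zero h2 hnumΦ h1.symm
    rw [hFC]
    apply hfaith (Phi J ζ) C
    · have h1 : (Matrix.of fun i l => pderiv (j i) (Phi J ζ (T (s l)))).det = Phi J ζ De := by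
        rw [hDe, AlgHom.map_det]
        congr 1
        ext i l : 2
        rw [Matrix.of_apply, (hphb E J ζ (T (s l))).2.2.2 (j i) (hjJ i)]
        rfl
      rw [h1]
      exact hDeΦ
    · rw [← hFC]
      exact hF0

end Pool.Agent.RS.H58C
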