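import Pool.Agent.Helper58_RS.CLU
import Pool.Agent.Helper99_RS.All

set_option autoImplicit false

/-!
# Squad RS: hitting sets for compositions of clusters (no hypotheses)
-/

namespace Pool.Agent.RS.H58C

open MvPolynomial

/-- Compositions of products are compositions of clusters. -/
theorem isCompC_of_isComp {E : Type} [Field E] {k d n : ℕ} {F : MvPolynomial ℕ E}
    (h : IsComp E k d n F) : IsCompC E k d n F := by
  obtain ⟨m, T, C, hT, hk, hF⟩ := h
  refine ⟨m, T, C, fun i => ?_, hk, hF⟩
  obtain ⟨N, f, hf, hTi⟩ := hT i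
  refine ⟨?_, N, 1, f, fun _ => 1, fun _ => 1, fun v => (hf v).1, fun _ => ?_, ?_⟩
  · have h1 : T i ∈ supported E {i : ℕ | i < n} := by
      rw [hTi]
      refine Subalgebra.prod_mem _ fun v _ => ?_
      rw [mem_supported]
      intro j hj
      exact Finset.mem_range.1 ((hf v).2 hj)
    rw [mem_supported] at h1
    intro j hj
    exact Finset.mem_range.2 (h1 hj)
  · refine ⟨one_ne_zero, ?_, ?_⟩ <;> simp
  · simp [hTi]

/-- The polynomials of the class are polynomials in the first `n` variables. -/
theorem vars_comp {E : Type} [Field E] {k d n : ℕ} {F : MvPolynomial ℕ E}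
    (hF : IsCompC E k d n F) : ∀ i ∈ F.vars, i < n := by
  obtain ⟨m, T, C, hT, -, rfl⟩ := hF
  have h1 : ∀ i, T i ∈ supported E {i : ℕ | i < n} := by
    intro i
    rw [mem_supported]
    intro j hj
    exact Finset.mem_range.1 ((hT i).1 hj)
  have h2 : aeval T C ∈ Algebra.adjoin E (Set.range T) := by
    rw [Algebra.adjoin_range_eq_range_aeval]
    exact ⟨C, rfl⟩
  have h3 : aeval T C ∈ supported E {i : ℕ | i < n} := by
    refine Algebra.adjoin_le ?_ h2
    rintro _ ⟨i, rfl⟩
    exact h1 i
  rw [mem_supported] at h3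
  intro i hi
  exact h3 hi

/-- **The hitting set** for one nonzero composition of clusters. -/
theorem hit (E : Type) [Field E] [CharZero E] (k d : ℕ) : ∃ t0 : ℕ,
    ∀ (n t : ℕ), t0 ≤ t → ∀ F : MvPolynomial ℕ E, IsCompC E k d n F → F ≠ 0 →
      ∃ w z : Fin t → E, eval (Pool.Agent.UO.point n w z) F ≠ 0 := by
  have gnt : GntStmt := H77.gnt H13.gno
  have fre : FreStmt := H25.fre
  obtain ⟨r, Δ, hspe⟩ := spe H99.rss H82.fai H15.lde H64.der H82.phb H47.nmt E k d
  refine ⟨Δ + r, fun n t ht F hF hF0 => ?_⟩
  obtain ⟨J, H, hJ, hH, hPhi⟩ := hspe n F hF hF0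
  obtain ⟨w, z, u, hwz⟩ := gnt E n Δ H hH
  have hG := hPhi (fun i => if i < n then Pool.Agent.UO.point n w z i else u i) hwz
  obtain ⟨y, hy⟩ : ∃ y : ℕ → E, eval y (Phi J
      (fun i => if i < n then Pool.Agent.UO.point n w z i else u i) F) ≠ 0 := by
    by_contra hcon
    push Not at hcon
    exact hG (MvPolynomial.funext fun y => by rw [hcon y, map_zero])
  obtain ⟨w', z', hp⟩ := fre E n Δ t (J.filter (· < n)) w z y
    (fun j hj => (Finset.mem_filter.1 hj).2)
    (le_trans (Nat.add_le_add_left ((Finset.card_filter_le _ _).trans hJ) _) ht)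
  refine ⟨w', z', ?_⟩
  have h1 : eval (Pool.Agent.UO.point n w' z') F = eval y (Phi J
      (fun i => if i < n then Pool.Agent.UO.point n w z i else u i) F) := by
    have h2 : eval y (Phi J (fun i => if i < n then Pool.Agent.UO.point n w z i else u i) F) =
        eval (fun i => if i ∈ J then y i else
          (if i < n then Pool.Agent.UO.point n w z i else u i)) F := by
      have h3 : (eval y).comp ((Phi J (fun i => if i < n then Pool.Agent.UO.point n w z i
          else u i)) : MvPolynomial ℕ E →ₐ[E] MvPolynomial ℕ E).toRingHom =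
          eval (fun i => if i ∈ J then y i else
            (if i < n then Pool.Agent.UO.point n w z i else u i)) := by
        refine MvPolynomial.ringHom_ext (fun c => ?_) fun i => ?_
        · simp [Phi]
        · by_cases hi : i ∈ J
          · simp [Phi, hi]
          · simp [Phi, hi]
      exact congrArg (fun g => g F) h3
    rw [h2]
    refine MvPolynomial.eval₂Hom_congr' rfl (fun i hi _ => ?_) rfl
    have hin : i < n := vars_comp hF i hi
    rw [hp i]
    by_cases hiJ : i ∈ J
    · simp [hiJ, hin]
    · simp [hiJ, hin]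
  rw [h1]
  exact hy

/-- **Products** of compositions of clusters. -/
theorem prd (E : Type) [Field E] [CharZero E] (k d : ℕ) : ∃ t0 : ℕ,
    ∀ (n t : ℕ), t0 ≤ t → ∀ S : List (MvPolynomial ℕ E), (∀ F ∈ S, IsCompC E k d n F) →
      S.prod ≠ 0 → ∃ w z : Fin t → E, eval (Pool.Agent.UO.point n w z) S.prod ≠ 0 := by
  obtain ⟨t0, h0⟩ := hit E k d
  refine ⟨t0, ?_⟩
  intro n t ht S hS hne
  -- the universal point
  let P : ℕ → MvPolynomial (Fin t ⊕ Fin t) E :=
    Pool.Agent.UO.point n (fun j => X (Sum.inl j)) (fun j => X (Sum.inr j))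
  have hev : ∀ (y : Fin t ⊕ Fin t → E) (F : MvPolynomial ℕ E), eval y (aeval P F) =
      eval (Pool.Agent.UO.point n (fun j => y (Sum.inl j)) (fun j => y (Sum.inr j))) F := by
    intro y F
    induction F using MvPolynomial.induction_on with
    | C a => simp
    | add p q hp hq => rw [map_add, map_add, map_add, hp, hq]
    | mul_X p i hp =>
      rw [map_mul, map_mul, map_mul, hp, aeval_X, eval_X]
      congr 1
      show eval y (Pool.Agent.UO.point n _ _ i) = _
      rw [H44.map_pt (eval y)]
      simp only [eval_X]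
  have hprod : ∀ S : List (MvPolynomial ℕ E), (∀ F ∈ S, IsCompC E k d n F) → S.prod ≠ 0 →
      aeval P S.prod ≠ 0 := by
    intro S
    induction S with
    | nil =>
      intro _ _
      rw [List.prod_nil, map_one]
      exact one_ne_zero
    | cons F S ih =>
      intro hc hn
      rw [List.prod_cons] at hn
      rw [List.prod_cons, map_mul]
      apply mul_ne_zero
      · obtain ⟨w, z, hwz⟩ := h0 n t ht F (hc F (List.mem_cons_self)) (left_ne_zero_of_mul hn)
        intro hz
        apply hwz
        have h1 := hev (Sum.elim w z) F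
        rw [hz, map_zero] at h1
        exact h1.symm
      · exact ih (fun G hG => hc G (List.mem_cons_of_mem _ hG)) (right_ne_zero_of_mul hn)
  have h1 := hprod S hS hne
  have h2 : ∃ y : Fin t ⊕ Fin t → E, eval y (aeval P S.prod) ≠ 0 := by
    by_contra hcon
    push Not at hcon
    apply h1
    apply MvPolynomial.funext
    intro y
    rw [hcon y, map_zero]
  obtain ⟨y, hy⟩ := h2
  rw [hev y] at hy
  exact ⟨_, _, hy⟩

end Pool.Agent.RS.H58C
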