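import Pool.Agent.Helper58_RS.CluDefs
import Pool.Agent.Helper58_RS.CLUH

set_option autoImplicit false

/-!
# Squad RS: the hitting set for compositions of clusters, examples of clusters
-/

namespace Pool.Agent.RS.H58C

open MvPolynomial

/-- A cluster is a polynomial in the first `n` variables. -/
theorem cluster_vars {E : Type} [Field E] {d n : ℕ} {T : MvPolynomial ℕ E}
    (h : Pool.Agent.RS.IsCluster E d n T) : T.vars ⊆ Finset.range n := by
  classical
  obtain ⟨N, M, f, a, b, hf, hab, hT⟩ := h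
  by_cases hT0 : T = 0
  · rw [hT0]
    simp
  intro i hi
  rw [Finset.mem_range]
  by_contra hin
  have hb : ∏ t, b t ≠ 0 := Finset.prod_ne_zero_iff.2 fun t _ => (hab t).2.2.2.2
  have hs : ∀ p : MvPolynomial ℕ E, p.vars ⊆ Finset.range n → p ∈ supported E {i : ℕ | i < n} := by
    intro p hp
    rw [mem_supported]
    intro j hj
    exact Finset.mem_range.1 (hp hj)
  have h1 : (∏ v, f v) * numer a b ∈ supported E {i : ℕ | i < n} := by
    refine Subalgebra.mul_mem _ (Subalgebra.prod_mem _ fun v _ => hs _ (hf v).2) ?_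
    unfold numer
    refine Subalgebra.sum_mem _ fun t _ => Subalgebra.mul_mem _ (hs _ (hab t).2.1) ?_
    exact Subalgebra.prod_mem _ fun t' _ => hs _ (hab t').2.2.2.1
  rw [← hT, mem_supported] at h1
  have h2 : i ∈ (T * ∏ t, b t).vars := by
    rw [mem_vars_iff_degreeOf_ne_zero] at hi ⊢
    rw [degreeOf_mul_eq hT0 hb]
    omega
  exact hin (h1 h2)

theorem isCompC_of_isClu {E : Type} [Field E] {k d n : ℕ} {F : MvPolynomial ℕ E}
    (h : IsClu E k d n F) : IsCompC E k d n F := by
  obtain ⟨m, T, C, hT, hk, hF⟩ := h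
  refine ⟨m, T, C, fun i => ⟨cluster_vars (hT i), ?_⟩, hk, hF⟩
  obtain ⟨N, M, f, a, b, hf, hab, hTe⟩ := hT i
  exact ⟨N, M, f, a, b, fun v => (hf v).1, fun t => ⟨(hab t).2.2.2.2, (hab t).1, (hab t).2.2.1⟩,
    hTe⟩

/-- **The hitting set** for a nonzero composition of clusters. -/
theorem hitC (E : Type) [Field E] [CharZero E] (k d : ℕ) : ∃ t0 : ℕ,
    ∀ (n t : ℕ), t0 ≤ t → ∀ F : MvPolynomial ℕ E, IsClu E k d n F → F ≠ 0 →
      ∃ w z : Fin t → E, eval (Pool.Agent.UO.point n w z) F ≠ 0 := by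
  obtain ⟨t0, h0⟩ := hit E k d
  exact ⟨t0, fun n t ht F hF hF0 => h0 n t ht F (isCompC_of_isClu hF) hF0⟩

section Examples

variable {E : Type} [Field E]

/-- Clusters from families over arbitrary finite types. -/
theorem mk {ι κ : Type} [Fintype ι] [Fintype κ] [DecidableEq κ] {d n : ℕ} (T : MvPolynomial ℕ E)
    (f : ι → MvPolynomial ℕ E) (a b : κ → MvPolynomial ℕ E)
    (hf : ∀ v, (f v).totalDegree ≤ d ∧ (f v).vars ⊆ Finset.range n)
    (hab : ∀ t, (a t).totalDegree ≤ d ∧ (a t).vars ⊆ Finset.range n ∧ (b t).totalDegree ≤ d ∧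
      (b t).vars ⊆ Finset.range n ∧ b t ≠ 0)
    (hT : io E T = io E (∏ v, f v) * ∑ t, io E (a t) / io E (b t)) :
    Pool.Agent.RS.IsCluster E d n T := by
  classical
  let e := (Fintype.equivFin ι).symm
  let e' := (Fintype.equivFin κ).symm
  refine ⟨Fintype.card ι, Fintype.card κ, fun v => f (e v), fun t => a (e' t), fun t => b (e' t),
    fun v => hf _, fun t => hab _, ?_⟩
  have hb : ∀ t, b (e' t) ≠ 0 := fun t => (hab (e' t)).2.2.2.2
  obtain ⟨-, -, hn3⟩ := H47.nmt (Fin (Fintype.card κ))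
  obtain ⟨htot, -⟩ := hn3 E (fun t => a (e' t)) (fun t => b (e' t)) hb
  have hbp : io E (∏ t, b (e' t)) ≠ 0 := by
    intro h
    rw [← map_zero (io E)] at h
    exact Finset.prod_ne_zero_iff.2 (fun t _ => hb t) (io_injective h)
  have h1 : total (fun t => a (e' t)) (fun t => b (e' t)) = ∑ t, io E (a t) / io E (b t) :=
    Equiv.sum_comp e' fun t => io E (a t) / io E (b t)
  have h2 : ∏ v, f (e v) = ∏ v, f v := Equiv.prod_comp e f
  apply io_injective
  rw [map_mul, map_mul, hT, ← h1, htot, h2, mul_assoc, div_mul_cancel₀ _ hbp]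

theorem cluster_mono {d d' n : ℕ} (hd : d ≤ d') {T : MvPolynomial ℕ E}
    (h : Pool.Agent.RS.IsCluster E d n T) : Pool.Agent.RS.IsCluster E d' n T := by
  obtain ⟨N, M, f, a, b, hf, hab, hT⟩ := h
  exact ⟨N, M, f, a, b, fun v => ⟨(hf v).1.trans hd, (hf v).2⟩, fun t => ⟨(hab t).1.trans hd,
    (hab t).2.1, (hab t).2.2.1.trans hd, (hab t).2.2.2.1, (hab t).2.2.2.2⟩, hT⟩

/-- A product of polynomials of degree `≤ d` is a cluster. -/
theorem cluster_prod {d n N : ℕ} (f : Fin N → MvPolynomial ℕ E)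
    (hf : ∀ v, (f v).totalDegree ≤ d ∧ (f v).vars ⊆ Finset.range n) :
    Pool.Agent.RS.IsCluster E d n (∏ v, f v) := by
  refine mk (κ := Unit) _ f (fun _ => 1) (fun _ => 1) hf (fun _ => ?_) ?_
  · refine ⟨?_, ?_, ?_, ?_, one_ne_zero⟩ <;> simp
  · simp

theorem vars_prod_range {ι : Type} {n : ℕ} (s : Finset ι) (g : ι → MvPolynomial ℕ E)
    (hg : ∀ i ∈ s, (g i).vars ⊆ Finset.range n) : (∏ i ∈ s, g i).vars ⊆ Finset.range n := by
  have h1 : ∏ i ∈ s, g i ∈ supported E ((Finset.range n : Finset ℕ) : Set ℕ) := by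
    refine Subalgebra.prod_mem _ fun i hi => ?_
    rw [mem_supported]
    exact_mod_cast hg i hi
  rw [mem_supported] at h1
  exact_mod_cast h1

theorem vars_mul_range {n : ℕ} {p q : MvPolynomial ℕ E} (hp : p.vars ⊆ Finset.range n)
    (hq : q.vars ⊆ Finset.range n) : (p * q).vars ⊆ Finset.range n := by
  classical
  exact (vars_mul p q).trans (Finset.union_subset hp hq)

theorem deg_prod {ι : Type} {d : ℕ} (s : Finset ι) (g : ι → MvPolynomial ℕ E)
    (hg : ∀ i ∈ s, (g i).totalDegree ≤ d) : (∏ i ∈ s, g i).totalDegree ≤ s.card * d := by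
  refine (totalDegree_finsetProd _ _).trans ?_
  refine (Finset.sum_le_card_nsmul _ _ d hg).trans ?_
  rw [smul_eq_mul]

/-- A sum of (arbitrarily many) products, each of which differs from one product
`f_1 ⋯ f_N` in at most `r` factors, with coefficients `h_i` of degree `≤ d`, is a cluster. -/
theorem cluster_sum {d n N M r : ℕ} (f : Fin N → MvPolynomial ℕ E)
    (h : Fin M → MvPolynomial ℕ E) (g : Fin M → Fin N → MvPolynomial ℕ E)
    (hf : ∀ v, f v ≠ 0 ∧ (f v).totalDegree ≤ d ∧ (f v).vars ⊆ Finset.range n)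
    (hh : ∀ i, (h i).totalDegree ≤ d ∧ (h i).vars ⊆ Finset.range n)
    (hg : ∀ i v, (g i v).totalDegree ≤ d ∧ (g i v).vars ⊆ Finset.range n)
    (hr : ∀ i, ∃ S : Finset (Fin N), S.card ≤ r ∧ ∀ v ∉ S, g i v = f v) :
    Pool.Agent.RS.IsCluster E ((r + 1) * d) n (∑ i, h i * ∏ v, g i v) := by
  classical
  choose S hS hSf using hr
  have hd1 : d ≤ (r + 1) * d := Nat.le_mul_of_pos_left d (Nat.succ_pos r)
  refine mk _ f (fun i => h i * ∏ v ∈ S i, g i v) (fun i => ∏ v ∈ S i, f v)
    (fun v => ⟨(hf v).2.1.trans hd1, (hf v).2.2⟩) (fun i => ⟨?_, ?_, ?_, ?_, ?_⟩) ?_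
  · refine (totalDegree_mul _ _).trans ?_
    have h1 := (hh i).1
    have h2 := (deg_prod (S i) (g i) fun v _ => (hg i v).1).trans (Nat.mul_le_mul_right d (hS i))
    rw [add_mul, one_mul, add_comm]
    omega
  · exact vars_mul_range (hh i).2 (vars_prod_range _ _ fun v _ => (hg i v).2)
  · refine (deg_prod (S i) f fun v _ => (hf v).2.1).trans ((Nat.mul_le_mul_right d (hS i)).trans ?_)
    exact Nat.mul_le_mul_right d (Nat.le_succ r)
  · exact vars_prod_range _ _ fun v _ => (hf v).2.2
  · exact Finset.prod_ne_zero_iff.2 fun v _ => (hf v).1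
  · rw [map_sum, Finset.mul_sum]
    refine Finset.sum_congr rfl fun i _ => ?_
    have hb : io E (∏ v ∈ S i, f v) ≠ 0 := by
      intro h0
      rw [← map_zero (io E)] at h0
      exact Finset.prod_ne_zero_iff.2 (fun v _ => (hf v).1) (io_injective h0)
    rw [← mul_div_assoc, eq_div_iff hb, ← map_mul, ← map_mul]
    congr 1
    have e1 : ∏ v, g i v = (∏ v ∈ S i, g i v) * ∏ v ∈ (S i)ᶜ, f v := by
      rw [← Finset.prod_mul_prod_compl (S i)]
      congr 1
      refine Finset.prod_congr rfl fun v hv => ?_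
      exact hSf i v (Finset.mem_compl.1 hv)
    have e2 : ∏ v, f v = (∏ v ∈ S i, f v) * ∏ v ∈ (S i)ᶜ, f v :=
      (Finset.prod_mul_prod_compl (S i) f).symm
    rw [e1, e2]
    ring

/-- Expansion of a determinant whose entries are sums of fractions. -/
theorem det_expandK {ρ : ℕ} (U : Fin ρ → Type) [∀ l, Fintype (U l)]
    (Te : Matrix (Fin ρ) (Fin ρ) (FF E))
    (nu : ∀ l : Fin ρ, Fin ρ → U l → MvPolynomial ℕ E) (de : ∀ l : Fin ρ, U l → MvPolynomial ℕ E)
    (h : ∀ i l, Te i l = ∑ u, io E (nu l i u) / io E (de l u)) :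
    Te.det = ∑ t : KIdx U, io E (((Equiv.Perm.sign t.1 : ℤ) : MvPolynomial ℕ E) *
        ∏ l, nu l (t.1 l) (t.2 l)) / io E (∏ l, de l (t.2 l)) := by
  rw [Matrix.det_apply', Fintype.sum_prod_type]
  apply Finset.sum_congr rfl
  intro σ _
  simp only [h]
  rw [Finset.prod_univ_sum, Fintype.piFinset_univ]
  have h2 : ∀ x : (∀ l : Fin ρ, U l),
      io E (((Equiv.Perm.sign σ : ℤ) : MvPolynomial ℕ E) * ∏ l, nu l (σ l) (x l)) /
        io E (∏ l, de l (x l)) = io E ((Equiv.Perm.sign σ : ℤ) : MvPolynomial ℕ E) *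
          ∏ l, io E (nu l (σ l) (x l)) / io E (de l (x l)) := by
    intro x
    rw [map_mul, map_prod, map_prod, Finset.prod_div_distrib, mul_div_assoc]
  simp only [h2]
  rw [← Finset.mul_sum]
  congr 1
  simp

/-- The determinant of a diagonal matrix plus a matrix of rank `≤ r` is a cluster. -/
theorem cluster_det {d n N r : ℕ} (f : Fin N → MvPolynomial ℕ E)
    (U V : Matrix (Fin N) (Fin r) (MvPolynomial ℕ E))
    (hf : ∀ v, f v ≠ 0 ∧ (f v).totalDegree ≤ d ∧ (f v).vars ⊆ Finset.range n)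
    (hU : ∀ v i, (U v i).totalDegree ≤ d ∧ (U v i).vars ⊆ Finset.range n)
    (hV : ∀ v i, (V v i).totalDegree ≤ d ∧ (V v i).vars ⊆ Finset.range n) :
    Pool.Agent.RS.IsCluster E ((2 * r + 1) * d) n
      (Matrix.diagonal f + U * V.transpose).det := by
  classical
  let W : Fin r → Type := fun _ => Option (Fin N)
  let nu : ∀ l : Fin r, Fin r → W l → MvPolynomial ℕ E := fun l i u =>
    match u with
    | none => if i = l then 1 else 0
    | some v => V v i * U v l
  let de : ∀ l : Fin r, W l → MvPolynomial ℕ E := fun l u =>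
    match u with
    | none => 1
    | some v => f v
  have hd1 : d ≤ (2 * r + 1) * d := Nat.le_mul_of_pos_left d (Nat.succ_pos _)
  have hnud : ∀ l i u, (nu l i u).totalDegree ≤ 2 * d := by
    rintro l i (_ | v)
    · show (if i = l then (1 : MvPolynomial ℕ E) else 0).totalDegree ≤ _
      split_ifs <;> simp
    · refine (totalDegree_mul _ _).trans ?_
      have := (hU v l).1
      have := (hV v i).1
      omega
  have hnuv : ∀ l i u, (nu l i u).vars ⊆ Finset.range n := by
    rintro l i (_ | v)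
    · show (if i = l then (1 : MvPolynomial ℕ E) else 0).vars ⊆ _
      split_ifs <;> simp
    · exact vars_mul_range (hV v i).2 (hU v l).2
  have hded : ∀ l u, (de l u).totalDegree ≤ 2 * d := by
    rintro l (_ | v)
    · show (1 : MvPolynomial ℕ E).totalDegree ≤ _
      simp
    · have h1 : (f v).totalDegree ≤ d := (hf v).2.1
      show (f v).totalDegree ≤ _
      omega
  have hdev : ∀ l u, (de l u).vars ⊆ Finset.range n := by
    rintro l (_ | v)
    · show (1 : MvPolynomial ℕ E).vars ⊆ _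
      simp
    · exact (hf v).2.2
  have hde0 : ∀ l u, de l u ≠ 0 := by
    rintro l (_ | v)
    · exact one_ne_zero
    · exact (hf v).1
  have hr2 : r * (2 * d) ≤ (2 * r + 1) * d := by
    have : r * (2 * d) = 2 * r * d := by ring
    rw [this]
    exact Nat.mul_le_mul_right d (Nat.le_succ _)
  refine mk (κ := KIdx W) _ f
    (fun t => ((Equiv.Perm.sign t.1 : ℤ) : MvPolynomial ℕ E) * ∏ l, nu l (t.1 l) (t.2 l))
    (fun t => ∏ l, de l (t.2 l)) (fun v => ⟨(hf v).2.1.trans hd1, (hf v).2.2⟩)
    (fun t => ⟨?_, ?_, ?_, ?_, ?_⟩) ?_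
  · refine (totalDegree_mul _ _).trans ?_
    have h1 : (((Equiv.Perm.sign t.1 : ℤ)) : MvPolynomial ℕ E).totalDegree = 0 := by
      rcases Int.units_eq_one_or (Equiv.Perm.sign t.1) with h | h
      · rw [h]
        simp
      · rw [h]
        simp
    rw [h1, zero_add]
    exact (prod_deg _ fun l => hnud l _ _).trans hr2
  · refine vars_mul_range ?_ (vars_prod_range _ _ fun l _ => hnuv l _ _)
    rcases Int.units_eq_one_or (Equiv.Perm.sign t.1) with h | h
    · rw [h]
      simp
    · rw [h]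
      simp
  · exact (prod_deg _ fun l => hded l _).trans hr2
  · exact vars_prod_range _ _ fun l _ => hdev l _
  · exact Finset.prod_ne_zero_iff.2 fun l _ => hde0 l _
  · -- over the field of fractions
    have hio0 : ∀ v, io E (f v) ≠ 0 := by
      intro v h0
      rw [← map_zero (io E)] at h0
      exact (hf v).1 (io_injective h0)
    let φ : MvPolynomial ℕ E →+* FF E := io E
    let D : Matrix (Fin N) (Fin N) (FF E) := Matrix.diagonal fun v => io E (f v)
    let D' : Matrix (Fin N) (Fin N) (FF E) := Matrix.diagonal fun v => (io E (f v))⁻¹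
    have hDD : D * D' = 1 := by
      rw [Matrix.diagonal_mul_diagonal]
      rw [← Matrix.diagonal_one]
      congr 1
      funext v
      exact mul_inv_cancel₀ (hio0 v)
    have h1 : io E (Matrix.diagonal f + U * V.transpose).det =
        (D + U.map φ * (V.map φ).transpose).det := by
      show φ _ = _
      rw [RingHom.map_det, RingHom.mapMatrix_apply, Matrix.map_add _ (map_add φ), Matrix.map_mul]
      congr 1
      rw [Matrix.transpose_map]
      congr 1
      rw [Matrix.diagonal_map (map_zero φ)]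
    have h2 : D + U.map φ * (V.map φ).transpose =
        D * (1 + (D' * U.map φ) * (V.map φ).transpose) := by
      rw [mul_add, mul_one, ← Matrix.mul_assoc, ← Matrix.mul_assoc, hDD, Matrix.one_mul]
    have h3 : (1 + (D' * U.map φ) * (V.map φ).transpose).det =
        (1 + (V.map φ).transpose * (D' * U.map φ)).det := Matrix.det_one_add_mul_comm _ _
    rw [h1, h2, Matrix.det_mul, h3, Matrix.det_diagonal, ← map_prod]
    congr 1
    refine det_expandK W _ nu de ?_
    intro i l
    rw [Fintype.sum_option]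
    show (1 : Matrix (Fin r) (Fin r) (FF E)) i l +
      ((V.map φ).transpose * (D' * U.map φ)) i l = _
    congr 1
    · show _ = io E (if i = l then 1 else 0) / io E 1
      rw [Matrix.one_apply, map_one, div_one]
      split_ifs
      · exact (map_one _).symm
      · exact (map_zero _).symm
    · rw [Matrix.mul_apply]
      refine Finset.sum_congr rfl fun v _ => ?_
      show _ = io E (V v i * U v l) / io E (f v)
      rw [Matrix.diagonal_mul, Matrix.transpose_apply, Matrix.map_apply, Matrix.map_apply, map_mul]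
      show io E (V v i) * ((io E (f v))⁻¹ * io E (U v l)) = _
      rw [div_eq_mul_inv]
      ring

end Examples

end Pool.Agent.RS.H58C
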