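import Pool.Agent.RS.Defs

set_option autoImplicit false

/-!
# Clusters of products and their compositions: definitions
-/

namespace Pool.Agent.RS

open MvPolynomial

/-- A cluster: `T = f_1 ⋯ f_N (a_1 / b_1 + ⋯ + a_M / b_M)` with arbitrary `N`, `M` and polynomials
`f_v`, `a_t`, `b_t ≠ 0` of degree `≤ d` in `x_0, ..., x_(n-1)` (the equation is multiplied by
`b_1 ⋯ b_M`; `numer a b` is the sum of the `a_t ∏ t' ≠ t, b_t'`). -/
def IsCluster (E : Type) [Field E] (d n : ℕ) (T : MvPolynomial ℕ E) : Prop :=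
  ∃ (N M : ℕ) (f : Fin N → MvPolynomial ℕ E) (a b : Fin M → MvPolynomial ℕ E),
    (∀ v, (f v).totalDegree ≤ d ∧ (f v).vars ⊆ Finset.range n) ∧
    (∀ t, (a t).totalDegree ≤ d ∧ (a t).vars ⊆ Finset.range n ∧ (b t).totalDegree ≤ d ∧
      (b t).vars ⊆ Finset.range n ∧ b t ≠ 0) ∧
    T * ∏ t, b t = (∏ v, f v) * numer a b

/-- `F = C(T_1, ..., T_m)` with an arbitrary polynomial `C` and clusters `T_i`; every algebraically
independent subfamily of the `T_i` has at most `k` members (for example `m ≤ k`). -/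
def IsClu (E : Type) [Field E] (k d n : ℕ) (F : MvPolynomial ℕ E) : Prop :=
  ∃ (m : ℕ) (T : Fin m → MvPolynomial ℕ E) (C : MvPolynomial (Fin m) E),
    (∀ i, IsCluster E d n (T i)) ∧
    (∀ s : Finset (Fin m), AlgebraicIndependent E (fun i : s => T i) → s.card ≤ k) ∧
    F = aeval T C

end Pool.Agent.RS
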